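import Pool.Agent.H74R2.WT.Stmts

/-!
Task K0 (helper368): the isometries of the plane.
-/

set_option autoImplicit false

namespace H74R2.WT

theorem t_K0 : T_K0 := by
  intro g
  obtain ⟨a, ha⟩ := linear_isometry_complex g.toRealLinearIsometryEquiv
  refine ⟨(a : ℂ), g 0, Circle.norm_coe a, ?_⟩
  have h : ∀ z, g z = g.toRealLinearIsometryEquiv z + g 0 := by
    intro z
    rw [IsometryEquiv.toRealLinearIsometryEquiv_apply, sub_add_cancel]
  rcases ha with ha | ha
  · refine Or.inl fun z => ?_
    rw [h z, ha, rotation_apply]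
  · refine Or.inr fun z => ?_
    rw [h z, ha]
    simp [rotation_apply]

end H74R2.WT
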